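import Pool.Agent.Helper75.PX.Stmts5

set_option autoImplicit false

universe u

open Module TensorProduct

namespace Pool.Agent.Helper75.PX

theorem ax3_step {D : Type u} [DivisionRing D] (h3 : (3 : D) = 0) (v y : D)
    (hcube : v * v * v * y = y * (v * v * v)) (hy : v * y ≠ y * v) :
    ∃ x w : D, w ≠ 0 ∧ v * x = x * v + w ∧ v * w = w * v := by
  have hd : v * (v * (v * y - y * v) - (v * y - y * v) * v) -
      (v * (v * y - y * v) - (v * y - y * v) * v) * v = 0 := by
    have e : v * (v * (v * y - y * v) - (v * y - y * v) * v) -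
      (v * (v * y - y * v) - (v * y - y * v) * v) * v =
      (v * v * v * y - y * (v * v * v)) + 3 * (v * y * v * v - v * v * y * v) := by
      noncomm_ring
    rw [e, hcube, h3]
    simp
  by_cases h : v * (v * y - y * v) - (v * y - y * v) * v = 0
  · exact ⟨y, v * y - y * v, sub_ne_zero.2 hy, by abel, sub_eq_zero.1 h⟩
  · exact ⟨v * y - y * v, v * (v * y - y * v) - (v * y - y * v) * v, h, by abel,
      sub_eq_zero.1 hd⟩

theorem st_AX3 (hK3 : ST_K3.{u}) : ST_AX3.{u} := by
  intro K D _ _ _ _ h9 h3K v c hv hvK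
  have h3 : (3 : D) = 0 := by
    have := congrArg (algebraMap K D) h3K
    rwa [map_ofNat, map_zero] at this
  have hv0 : v ≠ 0 := by
    intro h
    exact hvK 0 (by rw [h, map_zero])
  have hc0 : c ≠ 0 := by
    intro h
    rw [h, map_zero] at hv
    exact mul_ne_zero (mul_ne_zero hv0 hv0) hv0 hv
  obtain ⟨y, hy⟩ : ∃ y : D, v * y ≠ y * v := by
    by_contra hcon
    push Not at hcon
    have h1 : v ∈ Subalgebra.center K D := by
      rw [Subalgebra.mem_center_iff]
      intro y
      exact (hcon y).symm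
    have h2 : v ∈ (⊥ : Subalgebra K D) := Algebra.IsCentral.out h1
    obtain ⟨k, hk⟩ := Algebra.mem_bot.1 h2
    exact hvK k hk.symm
  have hcube : v * v * v * y = y * (v * v * v) := by
    rw [hv]
    exact Algebra.commutes c y
  obtain ⟨x1, w, hw, hx1, hvw⟩ := ax3_step h3 v y hcube hy
  have hinv : v * w⁻¹ = w⁻¹ * v := by
    have h1 : Commute v w := hvw
    exact h1.inv_right₀.eq
  obtain ⟨x, hx⟩ : ∃ x : D, x = x1 * w⁻¹ * v := ⟨_, rfl⟩
  have hux : v * x = (x + 1) * v := by
    calc v * x = (v * x1) * (w⁻¹ * v) := by rw [hx]; noncomm_ring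
      _ = (x1 * v + w) * (w⁻¹ * v) := by rw [hx1]
      _ = x1 * (v * w⁻¹) * v + (w * w⁻¹) * v := by noncomm_ring
      _ = x1 * (w⁻¹ * v) * v + 1 * v := by rw [hinv, mul_inv_cancel₀ hw]
      _ = (x + 1) * v := by rw [hx]; noncomm_ring
  have hux2 : v * (x * x * x - x) = (x * x * x - x) * v := by
    have e1 : v * (x * x * x - x) = ((x + 1) * (x + 1) * (x + 1) - (x + 1)) * v := by
      calc v * (x * x * x - x) = (v * x) * x * x - v * x := by noncomm_ring
        _ = ((x + 1) * v) * x * x - (x + 1) * v := by rw [hux]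
        _ = (x + 1) * (v * x) * x - (x + 1) * v := by noncomm_ring
        _ = (x + 1) * ((x + 1) * v) * x - (x + 1) * v := by rw [hux]
        _ = (x + 1) * (x + 1) * (v * x) - (x + 1) * v := by noncomm_ring
        _ = (x + 1) * (x + 1) * ((x + 1) * v) - (x + 1) * v := by rw [hux]
        _ = ((x + 1) * (x + 1) * (x + 1) - (x + 1)) * v := by noncomm_ring
    have e2 : (x + 1) * (x + 1) * (x + 1) - (x + 1) = x * x * x - x + 3 * (x * x + x) := by
      noncomm_ring
    rw [e1, e2, h3]
    simp
  have hne : x * v ≠ v * x := by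
    intro h
    rw [hux, add_mul, one_mul] at h
    have : v = 0 := by
      have h5 : x * v + v = x * v + 0 := by rw [add_zero]; exact h.symm
      exact add_left_cancel h5
    exact hv0 this
  obtain ⟨a, ha⟩ := hK3 K D h9 (x * x * x - x) x v (by noncomm_ring) hux2.symm hne
  refine ⟨x, a, ⟨?_, hux, hv, hc0⟩⟩
  rw [← ha]
  abel

end Pool.Agent.Helper75.PX
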