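import Pool.Agent.Helper75.PX.Stmts2

set_option autoImplicit false

universe u

open Module TensorProduct
open scoped Kronecker

namespace Pool.Agent.Helper2.PX

open Pool.Agent.Helper75.PX

/-- `a ↦ Ψ a ⊗ₖ 1` -/
def krL {K A Ω : Type u} [Field K] [Ring A] [Algebra K A] [Field Ω] [Algebra K Ω]
    {ι : Type} (κ : Type) [Fintype ι] [DecidableEq ι] [Fintype κ] [DecidableEq κ]
    (Ψ : A →ₐ[K] Matrix ι ι Ω) : A →ₐ[K] Matrix (ι × κ) (ι × κ) Ω where
  toFun a := Ψ a ⊗ₖ (1 : Matrix κ κ Ω)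
  map_one' := by rw [map_one, Matrix.one_kronecker_one]
  map_mul' a b := by rw [map_mul, ← Matrix.mul_kronecker_mul, mul_one]
  map_zero' := by rw [map_zero, Matrix.zero_kronecker]
  map_add' a b := by rw [map_add, Matrix.add_kronecker]
  commutes' r := by
    rw [AlgHom.commutes, Algebra.algebraMap_eq_smul_one, Algebra.algebraMap_eq_smul_one,
      Matrix.smul_kronecker, Matrix.one_kronecker_one]

/-- `b ↦ 1 ⊗ₖ Φ b` -/
def krR {K B Ω : Type u} [Field K] [Ring B] [Algebra K B] [Field Ω] [Algebra K Ω]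
    (ι : Type) {κ : Type} [Fintype ι] [DecidableEq ι] [Fintype κ] [DecidableEq κ]
    (Φ : B →ₐ[K] Matrix κ κ Ω) : B →ₐ[K] Matrix (ι × κ) (ι × κ) Ω where
  toFun b := (1 : Matrix ι ι Ω) ⊗ₖ Φ b
  map_one' := by rw [map_one, Matrix.one_kronecker_one]
  map_mul' a b := by rw [map_mul, ← Matrix.mul_kronecker_mul, mul_one]
  map_zero' := by rw [map_zero, Matrix.kronecker_zero]
  map_add' a b := by rw [map_add, Matrix.kronecker_add]
  commutes' r := by
    rw [AlgHom.commutes, Algebra.algebraMap_eq_smul_one, Algebra.algebraMap_eq_smul_one,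
      Matrix.kronecker_smul, Matrix.one_kronecker_one]

theorem st_KRO : ST_KRO.{u} := by
  intro K A B Ω _ _ _ _ _ _ _ ι κ _ _ _ _ Ψ Φ hΨ hΦ
  have hcomm : ∀ (a : A) (b : B), Commute (krL κ Ψ a) (krR ι Φ b) := by
    intro a b
    change (Ψ a ⊗ₖ (1 : Matrix κ κ Ω)) * ((1 : Matrix ι ι Ω) ⊗ₖ Φ b) =
      ((1 : Matrix ι ι Ω) ⊗ₖ Φ b) * (Ψ a ⊗ₖ (1 : Matrix κ κ Ω))
    rw [← Matrix.mul_kronecker_mul, ← Matrix.mul_kronecker_mul, mul_one, one_mul, one_mul, mul_one]
  have hval : ∀ (a : A) (b : B),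
      Algebra.TensorProduct.lift (krL κ Ψ) (krR ι Φ) hcomm (a ⊗ₜ[K] b) = Ψ a ⊗ₖ Φ b := by
    intro a b
    rw [Algebra.TensorProduct.lift_tmul]
    change (Ψ a ⊗ₖ (1 : Matrix κ κ Ω)) * ((1 : Matrix ι ι Ω) ⊗ₖ Φ b) = _
    rw [← Matrix.mul_kronecker_mul, mul_one, one_mul]
  refine ⟨Algebra.TensorProduct.lift (krL κ Ψ) (krR ι Φ) hcomm, ?_, hval⟩
  obtain ⟨S, hS⟩ : ∃ S : Submodule Ω (Matrix (ι × κ) (ι × κ) Ω), S =
    Submodule.span Ω (Set.range (Algebra.TensorProduct.lift (krL κ Ψ) (krR ι Φ) hcomm)) := ⟨_, rfl⟩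
  rw [← hS]
  have h1 : ∀ (a : A) (N : Matrix κ κ Ω), Ψ a ⊗ₖ N ∈ S := by
    intro a N
    have hN : N ∈ Submodule.span Ω (Set.range Φ) := by rw [hΦ]; trivial
    induction hN using Submodule.span_induction with
    | mem x hx =>
      obtain ⟨b, rfl⟩ := hx
      rw [← hval a b, hS]
      exact Submodule.subset_span ⟨_, rfl⟩
    | zero => rw [Matrix.kronecker_zero]; exact Submodule.zero_mem _
    | add x y _ _ hx hy => rw [Matrix.kronecker_add]; exact Submodule.add_mem _ hx hy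
    | smul c x _ hx => rw [Matrix.kronecker_smul]; exact Submodule.smul_mem _ c hx
  have h2 : ∀ (M : Matrix ι ι Ω) (N : Matrix κ κ Ω), M ⊗ₖ N ∈ S := by
    intro M N
    have hM : M ∈ Submodule.span Ω (Set.range Ψ) := by rw [hΨ]; trivial
    induction hM using Submodule.span_induction with
    | mem x hx =>
      obtain ⟨a, rfl⟩ := hx
      exact h1 a N
    | zero => rw [Matrix.zero_kronecker]; exact Submodule.zero_mem _
    | add x y _ _ hx hy => rw [Matrix.add_kronecker]; exact Submodule.add_mem _ hx hy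
    | smul c x _ hx => rw [Matrix.smul_kronecker]; exact Submodule.smul_mem _ c hx
  rw [eq_top_iff]
  intro X _
  rw [Matrix.matrix_eq_sum_single X]
  refine Submodule.sum_mem _ fun i _ => Submodule.sum_mem _ fun j _ => ?_
  have h3 : Matrix.single i j (X i j) =
      Matrix.single i.1 j.1 (X i j) ⊗ₖ Matrix.single i.2 j.2 (1 : Ω) := by
    rw [Matrix.single_kronecker_single, mul_one]
  rw [h3]
  exact h2 _ _

end Pool.Agent.Helper2.PX
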