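import Pool.Agent.Helper75.PX.Stmts

set_option autoImplicit false

universe u

open Module TensorProduct

namespace Pool.Agent.Helper2.PX

open Pool.Agent.Helper75.PX

theorem st_TCS (hS : ST_SIMP.{u}) : ST_TCS.{u} := by
  intro K A B _ _ _ _ _ _ _ _ _ _ _
  refine ⟨⟨?_⟩, hS K A B⟩
  intro x hx
  rw [Subalgebra.mem_center_iff] at hx
  have h1 : x ∈ (Algebra.TensorProduct.map (Subalgebra.center K A).val (AlgHom.id K B)).range := by
    rw [← Subalgebra.centralizer_coe_range_includeLeft_eq_center_tensorProduct]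
    rw [Subalgebra.mem_centralizer_iff]
    intro y _
    exact hx y
  have h2 : ∃ b : B, x = (1 : A) ⊗ₜ[K] b := by
    obtain ⟨w, hw⟩ := h1
    have : ∀ w : Subalgebra.center K A ⊗[K] B, ∃ b : B,
        (Algebra.TensorProduct.map (Subalgebra.center K A).val (AlgHom.id K B)) w
          = (1 : A) ⊗ₜ[K] b := by
      intro w
      induction w using TensorProduct.induction_on with
      | zero => exact ⟨0, by simp⟩
      | tmul c b =>
        have hc : (c : A) ∈ (⊥ : Subalgebra K A) := Algebra.IsCentral.out c.2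
        obtain ⟨k, hk⟩ := Algebra.mem_bot.1 hc
        refine ⟨k • b, ?_⟩
        rw [Algebra.TensorProduct.map_tmul]
        change (c : A) ⊗ₜ[K] b = _
        rw [← hk, Algebra.algebraMap_eq_smul_one, TensorProduct.smul_tmul]
      | add w1 w2 h1 h2 =>
        obtain ⟨b1, e1⟩ := h1
        obtain ⟨b2, e2⟩ := h2
        exact ⟨b1 + b2, by rw [map_add, e1, e2, TensorProduct.tmul_add]⟩
    obtain ⟨b, hb⟩ := this w
    exact ⟨b, by rw [← hb]; exact hw.symm⟩
  obtain ⟨b, rfl⟩ := h2
  have h3 : b ∈ Subalgebra.center K B := by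
    rw [Subalgebra.mem_center_iff]
    intro b'
    have h4 := hx ((1 : A) ⊗ₜ[K] b')
    rw [Algebra.TensorProduct.tmul_mul_tmul, Algebra.TensorProduct.tmul_mul_tmul, mul_one] at h4
    have hinj : Function.Injective (Algebra.TensorProduct.includeRight : B →ₐ[K] A ⊗[K] B) :=
      Algebra.TensorProduct.includeRight_injective (FaithfulSMul.algebraMap_injective K A)
    exact hinj h4
  have h5 : b ∈ (⊥ : Subalgebra K B) := Algebra.IsCentral.out h3
  obtain ⟨k, hk⟩ := Algebra.mem_bot.1 h5
  rw [Algebra.mem_bot]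
  refine ⟨k, ?_⟩
  rw [← hk, Algebra.algebraMap_eq_smul_one, Algebra.algebraMap_eq_smul_one,
    TensorProduct.tmul_smul, Algebra.TensorProduct.one_def]

end Pool.Agent.Helper2.PX
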